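import Mathlib

/-!
# Colourings with label-wise independent classes

Numeric lemma on `∑ √(a i)` and the resulting colouring lemma for systems of twelve graphs in
which every finite vertex set with at least two points can be split in two parts joined by few
edges of one label only.
-/

namespace Pool.Agent.H64.TwoSided

open Finset

/-- The weight of a demand vector. -/
noncomputable def wt (a : Fin 12 → ℕ) : ℝ := ∑ i, Real.sqrt (a i)

theorem wt_mono {a b : Fin 12 → ℕ} (h : ∀ i, a i ≤ b i) : wt a ≤ wt b := by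
  apply Finset.sum_le_sum
  intro i _
  exact Real.sqrt_le_sqrt (by exact_mod_cast h i)

theorem sqrt_add_le' (x y : ℝ) (hx : 0 ≤ x) (hy : 0 ≤ y) :
    Real.sqrt (x + y) ≤ Real.sqrt x + Real.sqrt y := by
  rw [Real.sqrt_le_left (by positivity)]
  nlinarith [Real.sq_sqrt hx, Real.sq_sqrt hy, Real.sqrt_nonneg x, Real.sqrt_nonneg y,
    mul_nonneg (Real.sqrt_nonneg x) (Real.sqrt_nonneg y)]

theorem sqrt_add_ge (x y : ℝ) (hx : 0 ≤ x) (hy : 0 ≤ y) :
    Real.sqrt x + Real.sqrt y ≤ Real.sqrt 2 * Real.sqrt (x + y) := by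
  rw [← Real.sqrt_mul (by norm_num)]
  apply Real.le_sqrt_of_sq_le
  nlinarith [Real.sq_sqrt hx, Real.sq_sqrt hy, sq_nonneg (Real.sqrt x - Real.sqrt y)]

theorem wt_bump (a : Fin 12 → ℕ) (j : Fin 12) (p : ℕ) (hp : p ≤ 12) :
    wt (fun i => a i + if i = j then p else 0) ≤ wt a + Real.sqrt 12 := by
  have h1 : wt (fun i => a i + if i = j then p else 0) ≤
      ∑ i, (Real.sqrt (a i) + if i = j then Real.sqrt 12 else 0) := by
    apply Finset.sum_le_sum
    intro i _
    by_cases h : i = j
    · simp only [h, if_true]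
      push_cast
      calc Real.sqrt ((a j : ℝ) + p) ≤ Real.sqrt (a j) + Real.sqrt p :=
            sqrt_add_le' _ _ (by positivity) (by positivity)
        _ ≤ _ := by
            have : Real.sqrt (p : ℝ) ≤ Real.sqrt 12 :=
              Real.sqrt_le_sqrt (by exact_mod_cast hp)
            linarith
    · simp [h]
  refine h1.trans ?_
  rw [Finset.sum_add_distrib]
  simp [wt]

/-- The numeric heart of the matter. -/
theorem wt_split (a b : Fin 12 → ℕ) (j : Fin 12) (p q : ℕ) (hp : p ≤ 12) (hq : q ≤ 12)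
    (h : wt (fun i => a i + b i) < 12) :
    wt (fun i => a i + if i = j then p else 0) < 12 ∨
      wt (fun i => b i + if i = j then q else 0) < 12 := by
  by_contra hcon
  push Not at hcon
  obtain ⟨ha, hb⟩ := hcon
  have ha' := wt_bump a j p hp
  have hb' := wt_bump b j q hq
  have hab : wt a + wt b ≤ Real.sqrt 2 * wt (fun i => a i + b i) := by
    unfold wt
    rw [← Finset.sum_add_distrib, Finset.mul_sum]
    apply Finset.sum_le_sum
    intro i _
    push_cast
    exact sqrt_add_ge _ _ (by positivity) (by positivity)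
  have h12 : Real.sqrt 12 ≤ 3.4642 := by
    rw [Real.sqrt_le_left (by norm_num)]
    norm_num
  have h2 : Real.sqrt 2 ≤ 1.41422 := by
    rw [Real.sqrt_le_left (by norm_num)]
    norm_num
  have h2' : 0 ≤ Real.sqrt 2 := Real.sqrt_nonneg 2
  have hw0 : (0 : ℝ) ≤ wt (fun i => a i + b i) :=
    Finset.sum_nonneg (fun i _ => Real.sqrt_nonneg _)
  have : Real.sqrt 2 * wt (fun i => a i + b i) ≤ 1.41422 * 12 := by
    apply mul_le_mul h2 h.le hw0 (by norm_num)
  linarith

variable {V : Type*} [DecidableEq V]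

/-- The splitting property of a system of twelve graphs. -/
def Splits (Adj : Fin 12 → V → V → Prop) : Prop :=
  ∀ B : Finset V, 1 < B.card → ∃ B₁ ⊆ B, B₁.Nonempty ∧ (B \ B₁).Nonempty ∧
    ∃ (j : Fin 12) (Y Z : Finset V), Y.card ≤ 12 ∧ Z.card ≤ 12 ∧
      ∀ a ∈ B₁, ∀ b ∈ B \ B₁, ∀ i, Adj i a b → i = j ∧ a ∈ Y ∧ b ∈ Z

theorem color_finset (Adj : Fin 12 → V → V → Prop) (hsymm : ∀ i a b, Adj i a b → Adj i b a)
    (hirr : ∀ i a, ¬ Adj i a a) (hs : Splits Adj) :
    ∀ (N : ℕ) (B : Finset V), B.card ≤ N → ∀ Φ : Fin 12 → Finset V,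
      wt (fun i => (Φ i ∩ B).card) < 12 →
      ∃ c : V → Fin 12, (∀ b ∈ B, b ∉ Φ (c b)) ∧
        ∀ a ∈ B, ∀ b ∈ B, ∀ i, Adj i a b → ¬ (c a = i ∧ c b = i) := by
  intro N
  induction N with
  | zero =>
    intro B hB Φ _
    have : B = ∅ := Finset.card_eq_zero.mp (Nat.le_zero.mp hB)
    subst this
    exact ⟨fun _ => 0, by simp, by simp⟩
  | succ N ih =>
    intro B hB Φ hΦ
    by_cases hB1 : B.card ≤ 1
    · by_cases hBe : B = ∅
      · subst hBe
        exact ⟨fun _ => 0, by simp, by simp⟩
      · obtain ⟨v, hv⟩ := Finset.nonempty_iff_ne_empty.mpr hBe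
        have hBv : B = {v} := by
          apply Finset.eq_singleton_iff_unique_mem.mpr
          exact ⟨hv, fun x hx => Finset.card_le_one.mp hB1 x hx v hv⟩
        have : ∃ j, v ∉ Φ j := by
          by_contra hcon
          push Not at hcon
          have h1 : ∀ i, (Φ i ∩ B).card = 1 := by
            intro i
            rw [hBv, Finset.inter_singleton_of_mem (hcon i)]
            simp
          have h2 : wt (fun i => (Φ i ∩ B).card) = 12 := by
            unfold wt
            simp [h1]
          linarith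
        obtain ⟨j, hj⟩ := this
        refine ⟨fun _ => j, ?_, ?_⟩
        · intro b hb
          rw [hBv, Finset.mem_singleton] at hb
          rw [hb]; exact hj
        · intro a ha b hb i hi
          rw [hBv, Finset.mem_singleton] at ha hb
          subst ha; subst hb
          exact absurd hi (hirr _ _)
    · push Not at hB1
      obtain ⟨B₁, hsub, hne₁, hne₂, j, Y, Z, hY, hZ, hadj⟩ := hs B hB1
      set B₂ := B \ B₁ with hB₂
      have hcard : B₁.card + B₂.card = B.card := by
        rw [hB₂, Finset.card_sdiff_of_subset hsub]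
        have := Finset.card_le_card hsub
        omega
      have hc1 : 0 < B₁.card := hne₁.card_pos
      have hc2 : 0 < B₂.card := hne₂.card_pos
      have hdisj : Disjoint B₁ B₂ := Finset.disjoint_sdiff
      have hunion : B₁ ∪ B₂ = B := Finset.union_sdiff_of_subset hsub
      have hsum : ∀ i, (Φ i ∩ B).card = (Φ i ∩ B₁).card + (Φ i ∩ B₂).card := by
        intro i
        rw [← hunion, Finset.inter_union_distrib_left, Finset.card_union_of_disjoint]
        exact hdisj.mono (Finset.inter_subset_right) (Finset.inter_subset_right)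
      have hΦ' : wt (fun i => (Φ i ∩ B₁).card + (Φ i ∩ B₂).card) < 12 := by
        have : (fun i => (Φ i ∩ B).card) = fun i => (Φ i ∩ B₁).card + (Φ i ∩ B₂).card :=
          funext hsum
        rw [← this]; exact hΦ
      have key := wt_split _ _ j Y.card Z.card hY hZ hΦ'
      have glue : (∃ c₁ c₂ : V → Fin 12,
          (∀ b ∈ B₁, b ∉ Φ (c₁ b)) ∧ (∀ b ∈ B₂, b ∉ Φ (c₂ b)) ∧
          (∀ a ∈ B₁, ∀ b ∈ B₁, ∀ i, Adj i a b → ¬ (c₁ a = i ∧ c₁ b = i)) ∧
          (∀ a ∈ B₂, ∀ b ∈ B₂, ∀ i, Adj i a b → ¬ (c₂ a = i ∧ c₂ b = i)) ∧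
          ∀ a ∈ B₁, ∀ b ∈ B₂, ∀ i, Adj i a b → ¬ (c₁ a = i ∧ c₂ b = i)) →
          ∃ c : V → Fin 12, (∀ b ∈ B, b ∉ Φ (c b)) ∧
            ∀ a ∈ B, ∀ b ∈ B, ∀ i, Adj i a b → ¬ (c a = i ∧ c b = i) := by
        rintro ⟨c₁, c₂, h1, h2, h3, h4, h5⟩
        have hn : ∀ x ∈ B₂, x ∉ B₁ := fun x hx hx' => (Finset.disjoint_left.mp hdisj hx') hx
        refine ⟨fun x => if x ∈ B₁ then c₁ x else c₂ x, ?_, ?_⟩
        · intro b hb
          rw [← hunion, Finset.mem_union] at hb
          rcases hb with hb | hb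
          · simp only [hb, if_true]; exact h1 b hb
          · simp only [hn b hb, if_false]; exact h2 b hb
        · intro a ha b hb i hi
          rw [← hunion, Finset.mem_union] at ha hb
          rcases ha with ha | ha <;> rcases hb with hb | hb
          · simp only [ha, hb, if_true]; exact h3 a ha b hb i hi
          · simp only [ha, hn b hb, if_true, if_false]; exact h5 a ha b hb i hi
          · simp only [hb, hn a ha, if_true, if_false]
            intro h
            exact h5 b hb a ha i (hsymm _ _ _ hi) ⟨h.2, h.1⟩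
          · simp only [hn a ha, hn b hb, if_false]; exact h4 a ha b hb i hi
      apply glue
      have ext : ∀ (C : Finset V) (W : Finset V), C.card ≤ N →
          wt (fun i => (Φ i ∩ C).card + if i = j then W.card else 0) < 12 →
          ∃ c : V → Fin 12, (∀ b ∈ C, b ∉ Φ (c b)) ∧ (∀ b ∈ C, b ∈ W → c b ≠ j) ∧
            ∀ a ∈ C, ∀ b ∈ C, ∀ i, Adj i a b → ¬ (c a = i ∧ c b = i) := by
        intro C W hC hw
        obtain ⟨c, hc1, hc2⟩ := ih C hC (fun i => Φ i ∪ if i = j then W else ∅) (by
          refine lt_of_le_of_lt (wt_mono ?_) hw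
          intro i
          by_cases h : i = j
          · simp only [h, if_true]
            rw [Finset.union_inter_distrib_right]
            refine (Finset.card_union_le _ _).trans ?_
            exact Nat.add_le_add_left (Finset.card_le_card Finset.inter_subset_left) _
          · simp [h])
        refine ⟨c, ?_, ?_, hc2⟩
        · intro b hb hb'
          exact hc1 b hb (Finset.mem_union_left _ hb')
        · intro b hb hbW hcj
          have := hc1 b hb
          rw [hcj] at this
          simp only [if_true, Finset.mem_union] at this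
          exact this (Or.inr hbW)
      have ext0 : ∀ C : Finset V, C ⊆ B → C.card ≤ N →
          ∃ c : V → Fin 12, (∀ b ∈ C, b ∉ Φ (c b)) ∧
            ∀ a ∈ C, ∀ b ∈ C, ∀ i, Adj i a b → ¬ (c a = i ∧ c b = i) := by
        intro C hCB hC
        apply ih C hC Φ
        refine lt_of_le_of_lt (wt_mono ?_) hΦ
        intro i
        exact Finset.card_le_card (Finset.inter_subset_inter_left hCB)
      rcases key with key | key
      · obtain ⟨c₁, h1, h2, h3⟩ := ext B₁ Y (by omega) key
        obtain ⟨c₂, h4, h5⟩ := ext0 B₂ (Finset.sdiff_subset) (by omega)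
        refine ⟨c₁, c₂, h1, h4, h3, h5, ?_⟩
        intro a ha b hb i hi h
        obtain ⟨hij, haY, -⟩ := hadj a ha b hb i hi
        exact h2 a ha haY (by rw [h.1, hij])
      · obtain ⟨c₂, h1, h2, h3⟩ := ext B₂ Z (by omega) key
        obtain ⟨c₁, h4, h5⟩ := ext0 B₁ hsub (by omega)
        refine ⟨c₁, c₂, h4, h1, h5, h3, ?_⟩
        intro a ha b hb i hi h
        obtain ⟨hij, -, hbZ⟩ := hadj a ha b hb i hi
        exact h2 b hb hbZ (by rw [h.2, hij])

/-- Compactness: a global colouring. -/
theorem exists_coloring (Adj : Fin 12 → V → V → Prop) (hsymm : ∀ i a b, Adj i a b → Adj i b a)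
    (hirr : ∀ i a, ¬ Adj i a a) (hs : Splits Adj) :
    ∃ c : V → Fin 12, ∀ a b i, Adj i a b → ¬ (c a = i ∧ c b = i) := by
  let S : {p : Fin 12 × V × V // Adj p.1 p.2.1 p.2.2} → Set (V → Fin 12) :=
    fun p => {c | ¬ (c p.1.2.1 = p.1.1 ∧ c p.1.2.2 = p.1.1)}
  have hclosed : ∀ p, IsClosed (S p) := by
    intro p
    have hc1 : Continuous (fun c : V → Fin 12 => c p.1.2.1) := continuous_apply _
    have hc2 : Continuous (fun c : V → Fin 12 => c p.1.2.2) := continuous_apply _
    have h1 : IsOpen {c : V → Fin 12 | c p.1.2.1 = p.1.1} :=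
      (isOpen_discrete ({p.1.1} : Set (Fin 12))).preimage hc1
    have h2 : IsOpen {c : V → Fin 12 | c p.1.2.2 = p.1.1} :=
      (isOpen_discrete ({p.1.1} : Set (Fin 12))).preimage hc2
    exact (h1.inter h2).isClosed_compl
  have hne : (⋂ p, S p).Nonempty := by
    apply CompactSpace.iInter_nonempty hclosed
    intro F
    let B : Finset V := F.biUnion (fun p => {p.1.2.1, p.1.2.2})
    obtain ⟨c, -, hc⟩ := color_finset Adj hsymm hirr hs B.card B le_rfl (fun _ => ∅) (by
      simp [wt])
    refine ⟨c, ?_⟩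
    simp only [Set.mem_iInter]
    intro p hp
    apply hc _ _ _ _ _ p.2
    · exact Finset.mem_biUnion.mpr ⟨p, hp, by simp⟩
    · exact Finset.mem_biUnion.mpr ⟨p, hp, by simp⟩
  obtain ⟨c, hc⟩ := hne
  refine ⟨c, fun a b i h => ?_⟩
  have := Set.mem_iInter.mp hc ⟨(i, a, b), h⟩
  exact this

end Pool.Agent.H64.TwoSided
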