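import Pool.Agent.H64.TwoSidedColor

/-!
# The graph system on the free group of countable rank

For every generator `k` a label and two finite sets `Z k`, `Y k` of elements built from
generators below `k` are given; the `i`-th graph joins `a` and `b` if `a⁻¹ b` or `b⁻¹ a` is of
the form `z⁻¹ · k · y` with `z ∈ Z k`, `y ∈ Y k` and `k` of label `i`.  Every finite set with at
least two points can be split so that all edges between the two parts have one label and lie in
a product of two sets with at most twelve points.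
-/

namespace Pool.Agent.H64.TwoSided

open FreeGroup

/-- The free group of countably infinite rank. -/
abbrev FG : Type := FreeGroup ℕ

/-- All letters of the reduced word of `g` have index below `k`. -/
def Low (k : ℕ) (g : FG) : Prop := ∀ l ∈ g.toWord, l.1 < k

/-- Number of letters with index `K` in the reduced word of `g`. -/
def cnt (K : ℕ) (g : FG) : ℕ := g.toWord.countP (fun l => decide (l.1 = K))

theorem low_one (k : ℕ) : Low k 1 := by
  intro l hl
  simp at hl

theorem Low.mul {k : ℕ} {a b : FG} (ha : Low k a) (hb : Low k b) : Low k (a * b) := by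
  intro l hl
  have := (toWord_mul_sublist a b).subset hl
  rcases List.mem_append.mp this with h | h
  exacts [ha l h, hb l h]

theorem Low.inv {k : ℕ} {a : FG} (ha : Low k a) : Low k a⁻¹ := by
  intro l hl
  rw [toWord_inv] at hl
  unfold invRev at hl
  rw [List.mem_reverse, List.mem_map] at hl
  obtain ⟨l', hl', rfl⟩ := hl
  exact ha l' hl'

theorem Low.mono {k m : ℕ} (h : k ≤ m) {a : FG} (ha : Low k a) : Low m a :=
  fun l hl => lt_of_lt_of_le (ha l hl) h

theorem low_inv_iff {k : ℕ} {a : FG} : Low k a⁻¹ ↔ Low k a :=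
  ⟨fun h => by simpa using h.inv, Low.inv⟩

theorem cnt_eq_zero {K : ℕ} {a : FG} (h : Low K a) : cnt K a = 0 := by
  unfold cnt
  rw [List.countP_eq_zero]
  intro l hl
  have := h l hl
  simp only [decide_eq_true_eq]
  omega

theorem exists_of_cnt_pos {K : ℕ} {a : FG} (h : 0 < cnt K a) : ∃ l ∈ a.toWord, l.1 = K := by
  unfold cnt at h
  rw [List.countP_pos_iff] at h
  simpa using h

theorem cnt_pos {K : ℕ} {a : FG} {l : ℕ × Bool} (hl : l ∈ a.toWord) (h : l.1 = K) :
    0 < cnt K a := by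
  unfold cnt
  rw [List.countP_pos_iff]
  exact ⟨l, hl, by simpa using h⟩

theorem last_occ (K : ℕ) : ∀ L : List (ℕ × Bool), (∀ l ∈ L, l.1 < K + 1) →
    (∃ l ∈ L, l.1 = K) → ∃ (P : List (ℕ × Bool)) (ε : Bool) (h : List (ℕ × Bool)),
      L = P ++ [(K, ε)] ++ h ∧ ∀ l ∈ h, l.1 < K := by
  intro L
  induction L with
  | nil => intro _ h; simp at h
  | cons a L ih =>
    intro hL hex
    by_cases h : ∃ l ∈ L, l.1 = K
    · obtain ⟨P, ε, h', hP, hh⟩ := ih (fun l hl => hL l (List.mem_cons_of_mem _ hl)) h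
      exact ⟨a :: P, ε, h', by rw [hP]; simp, hh⟩
    · have ha : a.1 = K := by
        obtain ⟨l, hl, hlK⟩ := hex
        rcases List.mem_cons.mp hl with rfl | hl'
        · exact hlK
        · exact absurd ⟨l, hl', hlK⟩ h
      refine ⟨[], a.2, L, ?_, ?_⟩
      · obtain ⟨a1, a2⟩ := a
        simp only at ha
        subst ha
        simp
      · intro l hl
        have h1 := hL l (List.mem_cons_of_mem _ hl)
        have h2 : l.1 ≠ K := fun h' => h ⟨l, hl, h'⟩
        omega

theorem mk_append (L M : List (ℕ × Bool)) : (mk (L ++ M) : FG) = mk L * mk M := by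
  rw [mul_mk]

theorem isReduced_append {L M : List (ℕ × Bool)} (hL : IsReduced L) (hM : IsReduced M)
    (h : ∀ x ∈ L.getLast?, ∀ y ∈ M.head?, x.1 = y.1 → x.2 = y.2) : IsReduced (L ++ M) :=
  List.IsChain.append hL hM h

theorem low_reduced {P : List (ℕ × Bool)} {K : ℕ} {ε : Bool} (hP : IsReduced (P ++ [(K, ε)]))
    {w : FG} (hw : Low K w) : IsReduced (P ++ [(K, ε)] ++ w.toWord) := by
  apply isReduced_append hP isReduced_toWord
  intro x hx y hy hxy
  have hxK : x = (K, ε) := by simpa using hx.symm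
  have hyw : y ∈ w.toWord := List.mem_of_mem_head? hy
  have := hw y hyw
  rw [hxK] at hxy
  simp only at hxy
  omega

theorem low_reduced' {K : ℕ} {w : FG} (hw : Low K w) (δ : Bool) :
    IsReduced (w.toWord ++ [(K, δ)]) := by
  apply isReduced_append isReduced_toWord (by simp)
  intro x hx y hy hxy
  have hyK : y = (K, δ) := by simpa using hy.symm
  have hxw : x ∈ w.toWord := List.mem_of_mem_getLast? hx
  have := hw x hxw
  rw [hyK] at hxy
  simp only at hxy
  omega

theorem toWord_long {P : List (ℕ × Bool)} {K : ℕ} {ε : Bool} (hP : IsReduced (P ++ [(K, ε)]))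
    {w v : FG} (hw : Low K w) (hv : Low K v) (δ : Bool) (hne : w ≠ 1 ∨ ε = δ) :
    (mk (P ++ [(K, ε)]) * w * mk [(K, δ)] * v).toWord =
      P ++ [(K, ε)] ++ w.toWord ++ [(K, δ)] ++ v.toWord := by
  have h1 : mk (P ++ [(K, ε)]) * w * mk [(K, δ)] * v =
      mk (P ++ [(K, ε)] ++ w.toWord ++ [(K, δ)] ++ v.toWord) := by
    rw [mk_append _ v.toWord, mk_append _ [(K, δ)], mk_append _ w.toWord, mk_toWord, mk_toWord]
  rw [h1, toWord_mk]
  apply IsReduced.reduce_eq
  apply low_reduced _ hv
  by_cases hw1 : w = 1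
  · have hεδ : ε = δ := by
      rcases hne with h | h
      · exact absurd hw1 h
      · exact h
    subst hw1
    simp only [toWord_one, List.append_nil]
    apply isReduced_append hP (by simp)
    intro x hx y hy _
    have hxK : x = (K, ε) := by simpa using hx.symm
    have hyK : y = (K, δ) := by simpa using hy.symm
    rw [hxK, hyK]
    exact hεδ
  · have hwn : w.toWord ≠ [] := fun h => hw1 (toWord_eq_nil_iff.mp h)
    exact IsReduced.append_overlap (low_reduced hP hw) (low_reduced' hw δ) hwn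

theorem toWord_short {P : List (ℕ × Bool)} {K : ℕ} {ε : Bool} (hP : IsReduced (P ++ [(K, ε)]))
    {w : FG} (hw : Low K w) :
    (mk (P ++ [(K, ε)]) * w).toWord = P ++ [(K, ε)] ++ w.toWord := by
  have h1 : mk (P ++ [(K, ε)]) * w = mk (P ++ [(K, ε)] ++ w.toWord) := by
    rw [mk_append _ w.toWord, mk_toWord]
  rw [h1, toWord_mk]
  exact IsReduced.reduce_eq (low_reduced hP hw)

theorem toWord_mid {K : ℕ} {u v : FG} (hu : Low K u) (hv : Low K v) (δ : Bool) :
    (u * mk [(K, δ)] * v).toWord = u.toWord ++ [(K, δ)] ++ v.toWord := by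
  have h1 : u * mk [(K, δ)] * v = mk (u.toWord ++ [(K, δ)] ++ v.toWord) := by
    rw [mk_append _ v.toWord, mk_append _ [(K, δ)], mk_toWord, mk_toWord]
  rw [h1, toWord_mk]
  exact IsReduced.reduce_eq (low_reduced (low_reduced' hu δ) hv)

/-- Data attached to the generators: a label and two finite sets. -/
abbrev Data : Type := Fin 12 × Finset FG × Finset FG

/-- The generator `k` is active: its two sets are small and only use generators below `k`. -/
def Good (f : ℕ → Data) (k : ℕ) : Prop :=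
  (f k).2.1.card ≤ 12 ∧ (f k).2.2.card ≤ 12 ∧ (∀ z ∈ (f k).2.1, Low k z) ∧
    ∀ y ∈ (f k).2.2, Low k y

/-- The first (`δ = true`) or second set attached to `k`. -/
def side (f : ℕ → Data) (k : ℕ) (δ : Bool) : Finset FG :=
  if δ then (f k).2.1 else (f k).2.2

/-- The connection set of the `i`-th graph. -/
def Conn (f : ℕ → Data) (i : Fin 12) (g : FG) : Prop :=
  ∃ k, Good f k ∧ (f k).1 = i ∧ ∃ δ : Bool, ∃ u ∈ side f k δ, ∃ v ∈ side f k (!δ),
    g = u⁻¹ * mk [(k, δ)] * v

theorem mk_inv_single (k : ℕ) (δ : Bool) : (mk [(k, δ)] : FG)⁻¹ = mk [(k, !δ)] := by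
  rw [inv_mk]
  rfl

theorem Conn.inv {f : ℕ → Data} {i : Fin 12} {g : FG} (h : Conn f i g) : Conn f i g⁻¹ := by
  obtain ⟨k, hk, hi, δ, u, hu, v, hv, rfl⟩ := h
  refine ⟨k, hk, hi, !δ, v, hv, u, by simpa using hu, ?_⟩
  rw [mul_inv_rev, mul_inv_rev, mk_inv_single, inv_inv, mul_assoc]

theorem side_low {f : ℕ → Data} {k : ℕ} (hk : Good f k) {δ : Bool} {u : FG}
    (hu : u ∈ side f k δ) : Low k u := by
  unfold side at hu
  split_ifs at hu
  · exact hk.2.2.1 u hu
  · exact hk.2.2.2 u hu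

theorem side_card {f : ℕ → Data} {k : ℕ} (hk : Good f k) (δ : Bool) :
    (side f k δ).card ≤ 12 := by
  unfold side
  split_ifs
  · exact hk.1
  · exact hk.2.1

theorem not_conn_one (f : ℕ → Data) (i : Fin 12) : ¬ Conn f i 1 := by
  rintro ⟨k, hk, -, δ, u, hu, v, hv, h⟩
  have h1 := toWord_mid (side_low hk hu).inv (side_low hk hv) δ
  rw [← h, toWord_one] at h1
  simp at h1

/-- The `i`-th graph. -/
def Adj (f : ℕ → Data) (i : Fin 12) (a b : FG) : Prop := Conn f i (a⁻¹ * b)

theorem adj_symm (f : ℕ → Data) (i : Fin 12) (a b : FG) (h : Adj f i a b) : Adj f i b a := by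
  have := Conn.inv h
  rwa [mul_inv_rev, inv_inv] at this

theorem adj_irrefl (f : ℕ → Data) (i : Fin 12) (a : FG) : ¬ Adj f i a a := by
  intro h
  unfold Adj at h
  rw [inv_mul_cancel] at h
  exact not_conn_one f i h

theorem splits (f : ℕ → Data) : Splits (Adj f) := by
  classical
  intro B hB
  obtain ⟨a₀, ha₀, b', hb', hab⟩ := Finset.one_lt_card.mp hB
  -- letters occurring
  let M : Finset ℕ := B.biUnion (fun b => ((a₀⁻¹ * b).toWord.map Prod.fst).toFinset)
  have hM : M.Nonempty := by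
    have h1 : a₀⁻¹ * b' ≠ 1 := fun h => hab (inv_mul_eq_one.mp h)
    have h2 : (a₀⁻¹ * b').toWord ≠ [] := fun h => h1 (toWord_eq_nil_iff.mp h)
    obtain ⟨l, hl⟩ := List.exists_mem_of_ne_nil _ h2
    exact ⟨l.1, Finset.mem_biUnion.mpr ⟨b', hb', by
      rw [List.mem_toFinset, List.mem_map]; exact ⟨l, hl, rfl⟩⟩⟩
  let K := M.max' hM
  have hlow : ∀ b ∈ B, Low (K + 1) (a₀⁻¹ * b) := by
    intro b hb l hl
    have : l.1 ∈ M := Finset.mem_biUnion.mpr ⟨b, hb, by
      rw [List.mem_toFinset, List.mem_map]; exact ⟨l, hl, rfl⟩⟩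
    exact Nat.lt_succ_of_le (M.le_max' _ this)
  have hKM : K ∈ M := M.max'_mem hM
  obtain ⟨bK, hbK, hbK'⟩ := Finset.mem_biUnion.mp hKM
  rw [List.mem_toFinset, List.mem_map] at hbK'
  obtain ⟨lK, hlK, hlK'⟩ := hbK'
  have hcK : 0 < cnt K (a₀⁻¹ * bK) := cnt_pos hlK hlK'
  obtain ⟨b₀, hb₀, hmax⟩ := Finset.exists_max_image B (fun b => cnt K (a₀⁻¹ * b)) ⟨a₀, ha₀⟩
  have hL : 0 < cnt K (a₀⁻¹ * b₀) := lt_of_lt_of_le hcK (hmax bK hbK)
  obtain ⟨P, ε, h, hPh, hhlow⟩ := last_occ K _ (hlow b₀ hb₀) (exists_of_cnt_pos hL)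
  have hred : IsReduced (P ++ [(K, ε)] ++ h) := by
    rw [← hPh]; exact isReduced_toWord
  have hredP : IsReduced (P ++ [(K, ε)]) := List.IsChain.left_of_append hred
  have hredh : IsReduced h := List.IsChain.right_of_append hred
  have hmkh : Low K (mk h) := by
    intro l hl
    rw [toWord_mk, IsReduced.reduce_eq hredh] at hl
    exact hhlow l hl
  have hb₀eq : a₀⁻¹ * b₀ = mk (P ++ [(K, ε)]) * mk h := by
    rw [← mk_append, ← hPh, mk_toWord]
  refine ⟨B.filter (fun b => Low K (b₀⁻¹ * b)), Finset.filter_subset _ _,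
    ⟨b₀, Finset.mem_filter.mpr ⟨hb₀, by rw [inv_mul_cancel]; exact low_one K⟩⟩,
    ⟨a₀, Finset.mem_sdiff.mpr ⟨ha₀, ?_⟩⟩, ?_⟩
  · intro hmem
    have h1 := (Finset.mem_filter.mp hmem).2
    have h2 : Low K (a₀⁻¹ * b₀) := by
      have := h1.inv
      rwa [mul_inv_rev, inv_inv] at this
    rw [cnt_eq_zero h2] at hL
    exact lt_irrefl _ hL
  · -- the key fact about edges leaving `B₁`
    have key : ∀ b₁ ∈ B.filter (fun b => Low K (b₀⁻¹ * b)),
        ∀ b₂ ∈ B \ B.filter (fun b => Low K (b₀⁻¹ * b)), ∀ i, Adj f i b₁ b₂ →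
        Good f K ∧ i = (f K).1 ∧ (∃ u ∈ side f K (!ε), b₁ = a₀ * mk (P ++ [(K, ε)]) * u) ∧
          ∃ v ∈ side f K ε, b₂ = a₀ * mk P * v := by
      intro b₁ hb₁ b₂ hb₂ i hadj
      rw [Finset.mem_filter] at hb₁
      rw [Finset.mem_sdiff, Finset.mem_filter] at hb₂
      obtain ⟨hb₁B, hb₁low⟩ := hb₁
      obtain ⟨hb₂B, hb₂not⟩ := hb₂
      obtain ⟨k, hk, hi, δ, u, hu, v, hv, hg⟩ := hadj
      have hulow := side_low hk hu
      have hvlow := side_low hk hv
      have hx : Low (K + 1) (b₁⁻¹ * b₂) := by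
        have h1 := (hlow b₁ hb₁B).inv.mul (hlow b₂ hb₂B)
        have h2 : (a₀⁻¹ * b₁)⁻¹ * (a₀⁻¹ * b₂) = b₁⁻¹ * b₂ := by group
        rwa [h2] at h1
      have hkK : k ≤ K := by
        have h1 := toWord_mid hulow.inv hvlow δ
        rw [← hg] at h1
        have h2 : (k, δ) ∈ (b₁⁻¹ * b₂).toWord := by rw [h1]; simp
        have h3 := hx _ h2
        simp only at h3
        omega
      have hkK' : k = K := by
        by_contra hne
        have hlt : k < K := lt_of_le_of_ne hkK hne
        apply hb₂not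
        refine ⟨hb₂B, ?_⟩
        have h1 : b₀⁻¹ * b₂ = (b₀⁻¹ * b₁) * (b₁⁻¹ * b₂) := by group
        rw [h1, hg]
        have h4 : Low K (mk [(k, δ)] : FG) := by
          intro l hl
          have h5 : l = (k, δ) := by simpa using hl
          rw [h5]; exact hlt
        exact hb₁low.mul (((hulow.mono hlt.le).inv.mul h4).mul (hvlow.mono hlt.le))
      subst hkK'
      set w : FG := mk h * (b₀⁻¹ * b₁) with hw
      have hwlow : Low K w := hmkh.mul hb₁low
      have hb₁eq : a₀⁻¹ * b₁ = mk (P ++ [(K, ε)]) * w := by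
        rw [hw, ← mul_assoc, ← hb₀eq]; group
      have hb₂eq : a₀⁻¹ * b₂ = mk (P ++ [(K, ε)]) * (w * u⁻¹) * mk [(K, δ)] * v := by
        have h1 : a₀⁻¹ * b₂ = (a₀⁻¹ * b₁) * (b₁⁻¹ * b₂) := by group
        rw [h1, hg, hb₁eq]; group
      have hcase : ¬ (w * u⁻¹ ≠ 1 ∨ ε = δ) := by
        intro hne
        have h1 := toWord_long hredP (hwlow.mul hulow.inv) hvlow δ hne
        rw [← hb₂eq] at h1
        have h2 : cnt K (a₀⁻¹ * b₂) = (P ++ [(K, ε)]).countP (fun l => decide (l.1 = K)) + 1 := by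
          unfold cnt
          rw [h1]
          rw [List.countP_append, List.countP_append, List.countP_append (l₁ := P ++ [(K, ε)])]
          have h3 := cnt_eq_zero (hwlow.mul hulow.inv)
          have h4 := cnt_eq_zero hvlow
          unfold cnt at h3 h4
          rw [h3, h4]
          simp
        have h3 : cnt K (a₀⁻¹ * b₀) = (P ++ [(K, ε)]).countP (fun l => decide (l.1 = K)) := by
          rw [hb₀eq]
          unfold cnt
          rw [toWord_short hredP hmkh, List.countP_append (l₁ := P ++ [(K, ε)])]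
          have h4 := cnt_eq_zero hmkh
          unfold cnt at h4
          rw [h4]
          rfl
        have h4 : cnt K (a₀⁻¹ * b₂) ≤ cnt K (a₀⁻¹ * b₀) := hmax b₂ hb₂B
        omega
      push Not at hcase
      obtain ⟨hwu, hεδ⟩ := hcase
      have hwu' : w = u := mul_inv_eq_one.mp hwu
      have hδ : δ = !ε := by
        cases ε <;> cases δ <;> simp_all
      subst hδ
      refine ⟨hk, hi.symm, ⟨u, hu, ?_⟩, ⟨v, by simpa using hv, ?_⟩⟩
      · rw [hwu'] at hb₁eq
        rw [mul_assoc, ← hb₁eq]; group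
      · rw [hwu] at hb₂eq
        have h1 : (mk (P ++ [(K, ε)]) : FG) * mk [(K, !ε)] = mk P := by
          rw [mk_append, mul_assoc]
          have : (mk [(K, ε)] : FG) * mk [(K, !ε)] = 1 := by
            rw [← mk_inv_single, mul_inv_cancel]
          rw [this, mul_one]
        rw [mul_one, h1] at hb₂eq
        rw [mul_assoc, ← hb₂eq]; group
    by_cases hK : Good f K
    · refine ⟨(f K).1, (side f K (!ε)).image (fun u => a₀ * mk (P ++ [(K, ε)]) * u),
        (side f K ε).image (fun v => a₀ * mk P * v),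
        Finset.card_image_le.trans (side_card hK _), Finset.card_image_le.trans (side_card hK _),
        ?_⟩
      intro b₁ hb₁ b₂ hb₂ i hadj
      obtain ⟨-, hi, ⟨u, hu, hu'⟩, ⟨v, hv, hv'⟩⟩ := key b₁ hb₁ b₂ hb₂ i hadj
      exact ⟨hi, Finset.mem_image.mpr ⟨u, hu, hu'.symm⟩, Finset.mem_image.mpr ⟨v, hv, hv'.symm⟩⟩
    · refine ⟨0, ∅, ∅, by simp, by simp, ?_⟩
      intro b₁ hb₁ b₂ hb₂ i hadj
      exact absurd (key b₁ hb₁ b₂ hb₂ i hadj).1 hK

/-- A sequence that takes every value arbitrarily late. -/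
theorem exists_enum : ∃ f : ℕ → Data, ∀ (t : Data) (N : ℕ), ∃ k, N ≤ k ∧ f k = t := by
  have : Countable FG := by
    have : Function.Injective (toWord : FG → List (ℕ × Bool)) := toWord_injective
    exact this.countable
  obtain ⟨g, hg⟩ := exists_surjective_nat (Data × ℕ)
  refine ⟨fun k => (g k).1, fun t N => ?_⟩
  by_contra hcon
  push Not at hcon
  have hinj : Function.Injective (fun m : ℕ => (t, m) : ℕ → Data × ℕ) := by
    intro a b hab
    simpa using hab
  let s : ℕ → ℕ := fun m => (hg (t, m)).choose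
  have hs : ∀ m, g (s m) = (t, m) := fun m => (hg (t, m)).choose_spec
  have hsinj : Function.Injective s := by
    intro a b hab
    have h1 := hs a
    rw [hab, hs b] at h1
    simpa using h1.symm
  have hlt : ∀ m, s m < N := by
    intro m
    by_contra hge
    push Not at hge
    exact hcon (s m) hge (by rw [hs m])
  have := Set.infinite_range_of_injective hsinj
  exact this ((Set.finite_lt_nat N).subset (by rintro _ ⟨m, rfl⟩; exact hlt m))

/-- A colouring of the free group of countable rank by twelve colours such that for every colour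
`i` and all sets `Z`, `Y` with at most twelve elements there is an element `k` for which no two
points of colour `i` differ by `z⁻¹ k y`, `z ∈ Z`, `y ∈ Y`. -/
theorem exists_free_coloring : ∃ c : FG → Fin 12, ∀ (i : Fin 12) (Z Y : Finset FG),
    Z.card ≤ 12 → Y.card ≤ 12 → ∃ g : FG, ∀ z ∈ Z, ∀ y ∈ Y, ∀ a b : FG,
      a⁻¹ * b = z⁻¹ * g * y → ¬ (c a = i ∧ c b = i) := by
  classical
  obtain ⟨f, hf⟩ := exists_enum
  obtain ⟨c, hc⟩ := exists_coloring (Adj f) (adj_symm f) (adj_irrefl f) (splits f)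
  refine ⟨c, fun i Z Y hZ hY => ?_⟩
  let M : Finset ℕ := (Z ∪ Y).biUnion (fun b => (b.toWord.map Prod.fst).toFinset)
  obtain ⟨N, hN⟩ : ∃ N, ∀ m ∈ M, m < N := by
    refine ⟨M.sup id + 1, fun m hm => Nat.lt_succ_of_le ?_⟩
    exact Finset.le_sup (f := id) hm
  obtain ⟨k, hk, hfk⟩ := hf (i, Z, Y) N
  have hlow : ∀ b ∈ Z ∪ Y, Low k b := by
    intro b hb l hl
    refine lt_of_lt_of_le (hN l.1 (Finset.mem_biUnion.mpr ⟨b, hb, ?_⟩)) hk
    rw [List.mem_toFinset, List.mem_map]
    exact ⟨l, hl, rfl⟩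
  have hgood : Good f k := by
    unfold Good
    rw [hfk]
    exact ⟨hZ, hY, fun z hz => hlow z (Finset.mem_union_left _ hz),
      fun y hy => hlow y (Finset.mem_union_right _ hy)⟩
  refine ⟨of k, fun z hz y hy a b hab => hc a b i ?_⟩
  refine ⟨k, hgood, by rw [hfk], true, z, ?_, y, ?_, hab⟩
  · simp only [side, hfk, if_true]; exact hz
  · simp only [side, hfk, Bool.not_true, Bool.false_eq_true, if_false]; exact hy

end Pool.Agent.H64.TwoSided
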